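import Pool.Agent.P.MP_839d28_al.Extend

/-! Signed permutation matrices, moving supports, and bounded generation by blocks. -/

open Matrix Equiv

set_option linter.unusedSectionVars false

namespace Pool.Agent.P.MP_839d28_al.K3

variable {ι : Type} [Fintype ι] [DecidableEq ι]

/-- signed permutation matrices -/
def sp (π : Perm ι) (e : ι → ℝ) : Matrix ι ι ℝ := (diagonal e).submatrix id π

theorem sp_apply (π : Perm ι) (e : ι → ℝ) (i j : ι) :
    sp π e i j = if i = π j then e i else 0 := by simp [sp, diagonal_apply]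

theorem sp_ne {π : Perm ι} {e : ι → ℝ} {i j : ι} (h : sp π e i j ≠ 0) : i = π j := by
  by_contra hc
  exact h (by simp [sp_apply, hc])

theorem mul_sp (A : Matrix ι ι ℝ) (π : Perm ι) (e : ι → ℝ) (i j : ι) :
    (A * sp π e) i j = A i (π j) * e (π j) := by simp [mul_apply, sp_apply]

theorem sp_orth (π : Perm ι) {e : ι → ℝ} (he : ∀ i, e i * e i = 1) :
    (sp π e)ᵀ * sp π e = 1 := by
  ext i j
  rw [mul_sp, transpose_apply, sp_apply, one_apply]
  by_cases h : i = j
  · simp [h, he]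
  · simp [h, Ne.symm h]

theorem sp_det (π : Perm ι) (e : ι → ℝ) :
    (sp π e).det = ((Perm.sign π : ℤ) : ℝ) * ∏ i, e i := by
  rw [sp, det_permute', det_diagonal]

theorem sp_mul (π π' : Perm ι) (e e' : ι → ℝ) :
    sp π e * sp π' e' = sp (π * π') fun i => e i * e' (π⁻¹ i) := by
  ext i j
  rw [mul_sp, sp_apply, sp_apply]
  by_cases h : i = π (π' j)
  · simp [h]
  · simp [h]

theorem sp_one : sp (1 : Perm ι) (fun _ => 1) = 1 := by
  ext i j
  simp [sp_apply, one_apply]

theorem sp_symm {π : Perm ι} {e : ι → ℝ} (h : ∀ i, π (π i) = i) (he : ∀ i, e (π i) = e i) :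
    (sp π e)ᵀ = sp π e := by
  ext i j
  rw [transpose_apply, sp_apply, sp_apply]
  by_cases hi : i = π j
  · simp [hi, h, he]
  · rw [if_neg hi, if_neg (by rintro rfl; exact hi (h i).symm)]

theorem sp_giv (π : Perm ι) (e : ι → ℝ) (a b : ι) :
    sp π e * giv a b * (sp π e)ᵀ = (e (π a) * e (π b)) • giv (π a) (π b) := by
  have key : ∀ a b : ι, sp π e * single a b (1 : ℝ) * (sp π e)ᵀ =
      (e (π a) * e (π b)) • single (π a) (π b) (1 : ℝ) := by
    intro a b
    ext i j
    simp only [mul_apply, single_apply, transpose_apply, sp_apply, Matrix.smul_apply, smul_eq_mul,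
      ite_and, mul_ite, mul_one, mul_zero, Finset.sum_ite_eq, Finset.mem_univ, if_true, ite_mul,
      zero_mul]
    rw [Finset.sum_eq_single b (fun x _ hx => by simp [Ne.symm hx]) (by simp)]
    by_cases h1 : i = π a <;> by_cases h2 : j = π b <;> simp [h1, h2, eq_comm]
  simp only [giv, mul_sub, sub_mul, key, smul_sub, mul_comm (e (π b))]

theorem sign_sq (π : Perm ι) : ((Perm.sign π : ℤ) : ℝ) * ((Perm.sign π : ℤ) : ℝ) = 1 := by
  rcases Int.units_eq_one_or (Perm.sign π) with h | h <;> simp [h]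

/-- two signs -/
def sg2 (x y : ι) (c d : ℝ) (i : ι) : ℝ := (if i = x then c else 1) * if i = y then d else 1

theorem sg2_sq (x y : ι) {c d : ℝ} (hc : c * c = 1) (hd : d * d = 1) (i : ι) :
    sg2 x y c d i * sg2 x y c d i = 1 := by
  unfold sg2
  split_ifs
  · linear_combination (d * d) * hc + hd
  all_goals simp [hc, hd]

theorem so_sp (π : Perm ι) (x y : ι) {c d : ℝ} (hc : c * c = 1) (hd : d * d = 1)
    (h : c * d = ((Perm.sign π : ℤ) : ℝ)) : SO (sp π (sg2 x y c d)) := by
  refine ⟨sp_orth π (sg2_sq x y hc hd), ?_⟩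
  simp only [sp_det, sg2, Finset.prod_mul_distrib, Finset.prod_ite_eq', Finset.mem_univ, if_true, h,
    sign_sq]

theorem sg2_inv {π : Perm ι} {x y : ι} (c : ℝ) {d : ℝ} (hx : π x = x) (hy : π y = y ∨ d = 1)
    (i : ι) : sg2 x y c d (π i) = sg2 x y c d i := by
  have e : ∀ z, π z = z → (π i = z ↔ i = z) := fun z hz => by
    conv_lhs => rw [← hz]
    exact π.injective.eq_iff
  rcases hy with hy | rfl
  · simp only [sg2, e x hx, e y hy]
  · simp only [sg2, e x hx, ite_self]

theorem rot_apply {a b : ι} (hab : a ≠ b) (t : ℝ) (i j : ι) :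
    rot (giv a b) t i j = if i = a then Real.cos t * (1 : Matrix ι ι ℝ) a j +
      Real.sin t * (1 : Matrix ι ι ℝ) b j else if i = b then
      Real.cos t * (1 : Matrix ι ι ℝ) b j - Real.sin t * (1 : Matrix ι ι ℝ) a j
      else (1 : Matrix ι ι ℝ) i j := by
  rw [← rot_giv_mul hab, mul_one]

theorem quarter {a b : ι} (hab : a ≠ b) :
    rot (giv a b) (Real.pi / 2) = sp (swap a b) (sg2 b b (-1) 1) := by
  ext i j
  rw [rot_apply hab, sp_apply]
  simp only [Real.cos_pi_div_two, Real.sin_pi_div_two, zero_mul, one_mul, zero_add, zero_sub,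
    one_apply, sg2, swap_apply_def, ite_self, mul_one]
  grind

theorem rot_cj {h : Matrix ι ι ℝ} (hh : SO h) (A : Matrix ι ι ℝ) (t : ℝ) :
    rot (h * A * hᵀ) t = h * rot A t * hᵀ := by
  have : h * A * hᵀ * (h * A * hᵀ) = h * (A * A) * hᵀ := by
    calc _ = h * A * (hᵀ * h) * A * hᵀ := by simp only [Matrix.mul_assoc]
      _ = _ := by rw [hh.1]; simp only [Matrix.mul_assoc, Matrix.one_mul]
  simp only [rot, this, mul_add, add_mul, smul_mul_assoc, mul_smul_comm, mul_one, hh.mul_transpose]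

theorem rot_neg (L : Matrix ι ι ℝ) (t : ℝ) : rot (-L) t = rot L (-t) := by simp [rot]

theorem Supp.cj {T T' : Set ι} {g h : Matrix ι ι ℝ} (hg : Supp T g) (hh : h * hᵀ = 1)
    (hT : ∀ i j, h i j ≠ 0 → j ∈ T → i ∈ T') : Supp T' (h * g * hᵀ) := by
  intro i j hij
  have e : h * g * hᵀ = h * (g - 1) * hᵀ + 1 := by
    rw [mul_sub, sub_mul, mul_one, hh, sub_add_cancel]
  rw [e, Matrix.add_apply, add_eq_right, mul_apply]
  refine Finset.sum_eq_zero fun l _ => ?_
  rw [mul_apply, Finset.sum_mul]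
  refine Finset.sum_eq_zero fun k _ => ?_
  by_contra hc
  simp only [mul_eq_zero, not_or, transpose_apply, Matrix.sub_apply, sub_eq_zero] at hc
  refine hc.1.2 (hg k l ?_)
  exact hij.imp (fun a b => a (hT _ _ hc.1.1 b)) fun a b => a (hT _ _ hc.2 b)

theorem SO.cj {g h : Matrix ι ι ℝ} (hh : SO h) (hg : SO g) : SO (h * g * hᵀ) :=
  (hh.mul hg).mul hh.transpose

variable {V : Type} [NormedAddCommGroup V] [InnerProductSpace ℂ V] (R : MatRep ι V) (v : V)

/-- all special orthogonal matrices supported in `T` move `v` by at most `δ` -/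
def Q (T : Set ι) (δ : ℝ) : Prop := ∀ g, SO g → Supp T g → R.N v g ≤ δ

/-- conjugation by `h` costs at most `η` -/
def Cj (h : Matrix ι ι ℝ) (η : ℝ) : Prop := ∀ g, SO g → R.N v (h * g * hᵀ) ≤ R.N v g + η

variable {R v}

theorem Q.mono {T T' : Set ι} {δ δ' : ℝ} (h : Q R v T δ) (hT : T' ⊆ T) (hδ : δ ≤ δ') :
    Q R v T' δ' := fun g a b => (h g a (b.mono hT)).trans hδ

theorem cj_of_N {h : Matrix ι ι ℝ} (hh : SO h) {δ : ℝ} (hδ : R.N v h ≤ δ) : Cj R v h (2 * δ) := by
  intro g hg
  have a := R.N_mul v (hh.mul hg) hh.transpose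
  have b := R.N_mul v hh hg
  rw [R.N_transpose v hh] at a
  linarith

theorem Cj.mul {g h : Matrix ι ι ℝ} {a b : ℝ} (h1 : Cj R v g a) (h2 : Cj R v h b) (hh : SO h) :
    Cj R v (g * h) (a + b) := by
  intro x hx
  have e1 := h1 _ (SO.cj hh hx)
  have e2 := h2 x hx
  rw [transpose_mul]
  simp only [Matrix.mul_assoc] at e1 e2 ⊢
  linarith

theorem Cj.mono {g : Matrix ι ι ℝ} {a b : ℝ} (h : Cj R v g a) (hab : a ≤ b) : Cj R v g b :=
  fun x hx => (h x hx).trans (by linarith)

theorem Q.move {T T' : Set ι} {δ η : ℝ} (hQ : Q R v T δ) {h : Matrix ι ι ℝ} (hh : SO h)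
    (hc : Cj R v h η) (hT : ∀ i j, h i j ≠ 0 → i ∈ T' → j ∈ T) : Q R v T' (δ + η) := by
  intro g hg hs
  have e : g = h * (hᵀ * g * hᵀᵀ) * hᵀ := by
    rw [transpose_transpose]
    calc g = (h * hᵀ) * g * (h * hᵀ) := by rw [hh.mul_transpose, one_mul, mul_one]
      _ = _ := by simp only [Matrix.mul_assoc]
  have s1 := SO.cj hh.transpose hg
  have := hQ _ s1 (Supp.cj hs hh.transpose.mul_transpose fun i j a b => hT j i a b)
  rw [e]
  linarith [hc _ s1]

theorem N_sign {L : Matrix ι ι ℝ} (hL : Adm L) {c : ℝ} (hc : c * c = 1) (t : ℝ) :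
    R.N v (rot (c • L) t) = R.N v (rot L t) := by
  rcases mul_self_eq_one_iff.mp hc with rfl | rfl
  · rw [one_smul]
  · rw [neg_one_smul, rot_neg, ← rot_transpose hL, R.N_transpose v (so_rot hL t)]

theorem N_giv {π : Perm ι} {e : ι → ℝ} (hs : SO (sp π e)) (he : ∀ i, e i * e i = 1) {η : ℝ}
    (hc : Cj R v (sp π e) η) {a b : ι} (hab : a ≠ b) (t : ℝ) :
    R.N v (rot (giv (π a) (π b)) t) ≤ R.N v (rot (giv a b) t) + η := by
  have := hc _ (so_rot (adm_giv hab) t)
  rwa [← rot_cj hs, sp_giv, N_sign (adm_giv (π.injective.ne hab))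
    (by linear_combination (e (π b) * e (π b)) * he (π a) + he (π b))] at this

/-- intervals -/
def Iv (n b x : ℕ) : Set (Fin n) := {i | x ≤ i.val ∧ i.val < x + b}

theorem Q.swap {n b y z : ℕ} {R : MatRep (Fin n) V} {T : Set (Fin n)} {δ δ' : ℝ} (hb : 0 < b)
    (hy : y + b ≤ n) (hyz : y + b ≤ z ∨ z + b ≤ y) (hT : ∀ i ∈ T, i ∉ Iv n b y ∧ i ∉ Iv n b z)
    (h1 : Q R v (T ∪ Iv n b y) δ) (h2 : Q R v (Iv n b y ∪ Iv n b z) δ') :
    Q R v (T ∪ Iv n b z) (δ + 2 * δ') := by
  let f : Fin n → Fin n := fun i => ⟨if z ≤ i.val ∧ i.val < z + b then i.val + y - z else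
    if y ≤ i.val ∧ i.val < y + b ∧ i.val + z - y < n then i.val + z - y else i.val, by
      have := i.2
      split_ifs <;> omega⟩
  have hf : Function.Involutive f := fun i => by
    have := i.2
    ext
    simp only [f]
    split_ifs <;> omega
  let x : Fin n := ⟨y, by omega⟩
  have so := so_sp hf.toPerm x x (sign_sq hf.toPerm) (one_mul 1) (mul_one _)
  refine h1.move so (cj_of_N so (h2 _ so ?_)) ?_
  · intro i j hij
    have e : ∀ i, i ∉ Iv n b y ∪ Iv n b z → f i = i ∧ i ≠ x := fun i hi => by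
      simp only [Iv, Set.mem_union, Set.mem_ofPred_eq] at hi
      refine ⟨Fin.ext ?_, fun h => hi (Or.inl (by simp [h, x, hb]))⟩
      simp only [f]
      split_ifs <;> omega
    rw [sp_apply, one_apply, Function.Involutive.coe_toPerm]
    rcases hij with h | h
    · have e1 := e i h
      have : i = f j ↔ i = j := by
        conv_lhs => rw [← e1.1]
        exact hf.injective.eq_iff
      simp [this, sg2, e1.2]
    · have e1 := e j h
      rw [e1.1]
      split_ifs with h'
      · simp [sg2, h', e1.2]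
      · rfl
  · intro i j hij hi
    have e : i.val = (f j).val := congrArg Fin.val (sp_ne hij)
    simp only [f] at e
    rcases hi with hi | hi
    · have := hT i hi
      simp only [Iv, Set.mem_ofPred_eq] at this
      have : j = i := by
        ext
        split_ifs at e <;> omega
      exact Or.inl (this ▸ hi)
    · right
      simp only [Iv, Set.mem_ofPred_eq] at hi ⊢
      split_ifs at e <;> omega

theorem star_bound {n b r : ℕ} {R : MatRep (Fin n) V} {δ : ℝ} (hδ : 0 ≤ δ) (hb : 0 < b)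
    (hn : b ≤ n) (hr : n ≤ r * b) (h : ∀ t, Q R v (Iv n b 0 ∪ Iv n b (t * b)) δ) (g)
    (hg : SO g) : R.N v g ≤ (r + 1) ^ 2 * (3 * δ) := by
  have e : ∀ (t : ℕ) (i : Fin n), i.val / b = t ↔ i ∈ Iv n b (t * b) := fun t i => by
    rw [Nat.div_eq_iff hb]
    simp only [Iv, Set.mem_ofPred_eq]
    omega
  have lt : ∀ t t', t < t' → t * b + b ≤ t' * b := fun t t' h => by
    rw [← Nat.succ_mul]
    exact Nat.mul_le_mul_right _ h
  refine block_bound (fun i => i.val / b) (R.N v) (by positivity)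
    (fun g h hg hh => R.N_le v hg hh) (fun t t' g hg hs => ?_) r g hg
    fun i j hij => absurd hij (by
      have := i.2
      have := j.2
      simp only [Set.mem_ofPred_eq, Nat.div_lt_iff_lt_mul hb]
      omega)
  simp only [e] at hs
  by_cases h1 : t = 0 ∨ t' = 0 ∨ t = t'
  · rcases h1 with rfl | rfl | rfl
    · exact (h t' g hg (hs.mono fun i hi => by simpa using hi)).trans (by linarith)
    · exact (h t g hg (hs.mono fun i hi => by simpa using Or.symm hi)).trans (by linarith)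
    · exact (h t g hg (hs.mono fun i hi => Or.inr (by simpa using hi))).trans (by linarith)
  have a1 := lt 0 t (by omega)
  have a2 := lt 0 t' (by omega)
  have a3 : t * b + b ≤ t' * b ∨ t' * b + b ≤ t * b :=
    (lt_or_gt_of_ne (by omega : t ≠ t')).imp (lt _ _) (lt _ _)
  have := Q.swap (T := Iv n b (t * b)) hb (by omega) (Or.inl (by omega)) (fun i hi => by
    simp only [Iv, Set.mem_ofPred_eq] at hi ⊢
    omega) (Set.union_comm _ _ ▸ h t) (h t') g hg hs
  linarith

theorem path_star {n b : ℕ} {R : MatRep (Fin n) V} {δ : ℝ} (hδ : 0 ≤ δ) (hb : 0 < b) (r : ℕ)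
    (h : ∀ t < r, Q R v (Iv n (2 * b) (t * b)) δ) (hr : 0 < r) :
    ∀ t ≤ r, Q R v (Iv n b 0 ∪ Iv n b (t * b)) ((2 * t + 1) * δ) := by
  have h' : ∀ t < r, Q R v (Iv n b (t * b) ∪ Iv n b ((t + 1) * b)) δ := fun t ht =>
    (h t ht).mono (fun i hi => by
      simp only [Iv, Set.mem_union, Set.mem_ofPred_eq, add_mul] at hi ⊢
      omega) le_rfl
  intro t
  induction t with
  | zero => exact fun _ => (h' 0 hr).mono (fun i hi => Or.inl (by simpa using hi)) (by simp)
  | succ t ih =>
    intro ht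
    have p : (0 : ℝ) ≤ t * δ := by positivity
    rcases Nat.eq_zero_or_pos t with rfl | h0
    · exact (h' 0 hr).mono (by simp) (by norm_num; linarith)
    have a : b ≤ t * b := Nat.le_mul_of_pos_left _ h0
    by_cases hn : t * b + b ≤ n
    · refine (Q.swap hb hn (Or.inl (by rw [add_mul, one_mul])) (fun i hi => ?_) (ih (by omega))
        (h' t ht)).mono subset_rfl (by push_cast; linarith)
      simp only [Iv, Set.mem_ofPred_eq, add_mul] at hi ⊢
      omega
    · refine (ih (by omega)).mono (fun i hi => ?_) (by push_cast; linarith)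
      have := i.2
      simp only [Iv, Set.mem_union, Set.mem_ofPred_eq, add_mul] at hi ⊢
      omega

/-- `S` controls everything through products of two elements and conjugations -/
def SK (S : Finset (Matrix ι ι ℝ)) (C : ℝ) : Prop :=
  ∀ (V : Type) [NormedAddCommGroup V] [InnerProductSpace ℂ V] [FiniteDimensional ℂ V]
    (R : MatRep ι V) (v : V) (ε : ℝ), 0 ≤ ε → (∀ s ∈ S, ∀ s' ∈ S, R.N v (s * s') ≤ ε) →
    (∀ s ∈ S, Cj R v s ε) → ∀ g, SO g → R.N v g ≤ C * ε

/-- at most three elements of order at most two that control everything -/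
def Has3 (n : ℕ) (C : ℝ) : Prop :=
  ∃ S : Finset (Matrix (Fin n) (Fin n) ℝ), S.card ≤ 3 ∧ (∀ s ∈ S, SO s ∧ s * s = 1) ∧ SK S C

theorem Has3.mono {n : ℕ} {C C' : ℝ} (h : Has3 n C) (hC : C ≤ C') : Has3 n C' := by
  obtain ⟨S, h1, h2, h3⟩ := h
  exact ⟨S, h1, h2, fun V _ _ _ R v ε hε a b g hg =>
    (h3 V R v ε hε a b g hg).trans (by gcongr)⟩

end Pool.Agent.P.MP_839d28_al.K3
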