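import Pool.Agent.P.MP_839d28_al.K3.Large
import Pool.Agent.P.MP_839d28_al.Transfer

/-! Two-sided gaps, padding, and the lower bound on the number of generators. -/

open Matrix MeasureTheory

set_option linter.unusedSectionVars false

namespace Pool.Agent.P.MP_839d28_al.K3

variable {ι : Type} [Fintype ι] [DecidableEq ι]

theorem SK.kaz {S T : Finset (Matrix ι ι ℝ)} {C : ℝ} (h : SK S C) (hC : 0 ≤ C)
    (hS : ∀ s ∈ S, SO s ∧ s * s = 1) (hT : ∀ s ∈ S, ∀ s' ∈ S, s * s' ∈ T) : Kaz T (4 * C) := by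
  intro V _ _ _ R v ε hε hs g hg
  have m : ∀ a b, SO a → SO b → ∀ u, R.ρ (a * b) u = R.ρ a (R.ρ b u) := fun a b ha hb u => by
    rw [R.mul a b ha hb]
    rfl
  have one : ∀ s ∈ S, ∀ u, R.ρ s (R.ρ s u) = u := fun s h u => by
    rw [← m s s (hS s h).1 (hS s h).1, (hS s h).2, R.one]
    rfl
  rcases S.eq_empty_or_nonempty with rfl | ⟨x, hx⟩
  · have := h V R v ε hε (by simp) (by simp) g hg
    nlinarith [mul_nonneg hC hε]
  have key : ∀ c : ℂ, c * c = 1 → R.N (v + c • R.ρ x v) g ≤ C * (4 * ε) := fun c hc => by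
    have nc : ‖c‖ = 1 := by rcases mul_self_eq_one_iff.mp hc with rfl | rfl <;> simp
    set u := v + c • R.ρ x v with hu
    have a : ∀ s ∈ S, ‖R.ρ s u - c • u‖ ≤ 2 * ε := fun s h => by
      have e : R.ρ s u - c • u = c • (R.ρ (s * x) v - v) - R.ρ s (R.ρ (s * x) v - v) := by
        rw [m s x (hS s h).1 (hS x hx).1, hu]
        simp only [map_add, map_sub, map_smul, one s h, smul_add, smul_sub, smul_smul, hc, one_smul]
        abel
      have := hs _ (hT s h x hx)
      rw [e]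
      refine (norm_sub_le _ _).trans ?_
      rw [norm_smul, nc, R.norm s (hS s h).1]
      simp only [MatRep.N] at this
      linarith
    refine h V R u (4 * ε) (by positivity) (fun s h s' h' => ?_) (fun s h k hk => ?_) g hg
    · have e : R.ρ (s * s') u - u = R.ρ s (R.ρ s' u - c • u) + c • (R.ρ s u - c • u) := by
        rw [m s s' (hS s h).1 (hS s' h').1]
        simp only [map_sub, map_smul, smul_sub, smul_smul, hc, one_smul]
        abel
      rw [MatRep.N, e]
      refine (norm_add_le _ _).trans ?_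
      rw [norm_smul, nc, R.norm s (hS s h).1]
      linarith [a s h, a s' h']
    · have st : sᵀ = s := by
        rw [← Matrix.mul_one sᵀ, ← (hS s h).2, ← Matrix.mul_assoc, (hS s h).1.1, Matrix.one_mul]
      have e : R.ρ (s * k * s) u - u = R.ρ s (R.ρ k (R.ρ s u - c • u) + c • (R.ρ k u - u) -
          (R.ρ s u - c • u)) := by
        rw [m _ s ((hS s h).1.mul hk) (hS s h).1, m s k (hS s h).1 hk]
        simp only [map_add, map_sub, map_smul, smul_sub, one s h]
        abel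
      rw [st, MatRep.N, e, R.norm s (hS s h).1]
      refine (norm_sub_le _ _).trans ((add_le_add_left (norm_add_le _ _) _).trans ?_)
      rw [norm_smul, nc, R.norm k hk, MatRep.N]
      linarith [a s h]
  have k1 := key 1 (by simp)
  have k2 := key (-1) (by simp)
  have e : (2 : ℂ) • (R.ρ g v - v) = (R.ρ g (v + (1 : ℂ) • R.ρ x v) - (v + (1 : ℂ) • R.ρ x v)) +
      (R.ρ g (v + (-1 : ℂ) • R.ρ x v) - (v + (-1 : ℂ) • R.ρ x v)) := by
    simp only [map_add, map_smul]
    module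
  have := norm_add_le_of_le k1 k2
  rw [← e, norm_smul] at this
  simp only [Complex.norm_ofNat] at this
  rw [MatRep.N]
  linarith

theorem two_sided (S S' : Finset (SOG ι)) (hS : S ⊆ S') (h3 : S.card ≤ 3) {C : ℝ} (hC : 0 < C)
    (hK : Kaz ((S ×ˢ S).image fun p => inc ι (p.1 * p.2)) C) (ν : Measure (SOG ι))
    [IsProbabilityMeasure ν] [ν.IsMulLeftInvariant] (f : SOG ι → ℝ) (hf : MemLp f 2 ν)
    (h0 : ∫ x, f x ∂ν = 0) :
    |∑ s ∈ S', ∫ x, f (s * x) * f x ∂ν| ≤ (S'.card - (36 * C ^ 2)⁻¹) * ∫ x, f x ^ 2 ∂ν := by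
  classical
  have hf' : MemLp (fun x => (f x : ℂ)) 2 ν := hf.ofReal
  have h := gap_Lp ν emb_inc continuous_inc (fun s hs => by
    obtain ⟨p, -, rfl⟩ := Finset.mem_image.mp hs
    exact emb_inc.so _) hK ((S ×ˢ S).image fun p => p.1 * p.2) (fun g hg _ => by
      obtain ⟨p, hp, e⟩ := Finset.mem_image.mp hg
      exact Finset.mem_image.mpr ⟨p, hp, emb_inc.inj e⟩) hf'.toLp
  have a1 : ∀ s, (inner ℂ (reg ν s hf'.toLp) hf'.toLp).re = ∫ x, f (s * x) * f x ∂ν := by
    intro s
    have : inner ℂ (reg ν s hf'.toLp) hf'.toLp = ∫ x, ((f x * f (s⁻¹ * x) : ℝ) : ℂ) ∂ν := by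
      rw [L2.inner_def]
      refine integral_congr_ae ?_
      filter_upwards [reg_ae ν s hf'.coeFn_toLp, hf'.coeFn_toLp] with x h1 h2
      simp [h1, h2]
    rw [this, integral_complex_ofReal, ← integral_mul_left_eq_self _ s]
    simp
  have a2 : ‖hf'.toLp‖ ^ 2 = ∫ x, f x ^ 2 ∂ν := by
    have := a1 1
    rw [reg_one, inner_self_eq_norm_sq_to_K] at this
    simp only [one_mul, ← sq] at this
    rw [← this]
    norm_cast
  have a3 : inner ℂ (ContinuousMap.toLp 2 ν ℂ (1 : C(SOG ι, ℂ))) hf'.toLp = 0 := by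
    have : inner ℂ (ContinuousMap.toLp 2 ν ℂ (1 : C(SOG ι, ℂ))) hf'.toLp =
        ∫ x, ((f x : ℝ) : ℂ) ∂ν := by
      rw [L2.inner_def]
      refine integral_congr_ae ?_
      filter_upwards [ContinuousMap.coeFn_toLp (p := 2) (𝕜 := ℂ) ν (1 : C(SOG ι, ℂ)),
        hf'.coeFn_toLp] with x h1 h2
      rw [h1, h2]
      simp
    rw [this, integral_complex_ofReal, h0]
    simp
  set v := hf'.toLp
  rw [a3, norm_zero] at h
  have key : ∀ c : ℝ, c * c = 1 → c * ∑ s ∈ S', ∫ x, f (s * x) * f x ∂ν ≤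
      (S'.card - (36 * C ^ 2)⁻¹) * ∫ x, f x ^ 2 ∂ν := fun c hc => by
    have hc' : (c : ℂ) * c = 1 := by exact_mod_cast hc
    have nc : ‖(c : ℂ)‖ = 1 := by rcases mul_self_eq_one_iff.mp hc with rfl | rfl <;> simp
    set M := ∑ s ∈ S', ‖reg ν s v - (c : ℂ) • v‖ ^ 2 with hM
    have m1 : ∀ s ∈ S, ‖reg ν s v - (c : ℂ) • v‖ ^ 2 ≤ M := fun s hs =>
      Finset.single_le_sum (f := fun s => ‖reg ν s v - (c : ℂ) • v‖ ^ 2)
        (fun _ _ => sq_nonneg _) (hS hs)
    have m2 : ∀ t ∈ (S ×ˢ S).image fun p => p.1 * p.2, ‖reg ν t v - v‖ ^ 2 ≤ 4 * M := by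
      intro t ht
      obtain ⟨⟨a, b⟩, hp, rfl⟩ := Finset.mem_image.mp ht
      rw [Finset.mem_product] at hp
      have e : reg ν (a * b) v - v = reg ν a (reg ν b v - (c : ℂ) • v) +
          (c : ℂ) • (reg ν a v - (c : ℂ) • v) := by
        simp only [reg_mul, map_sub, map_smul, smul_sub, smul_smul, hc', one_smul]
        abel
      have := norm_add_le (reg ν a (reg ν b v - (c : ℂ) • v)) ((c : ℂ) • (reg ν a v - (c : ℂ) • v))
      rw [← e, norm_smul, nc, one_mul, (reg ν a).norm_map] at this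
      have := pow_le_pow_left₀ (norm_nonneg _) this 2
      nlinarith [m1 a hp.1, m1 b hp.2,
        sq_nonneg (‖reg ν b v - (c : ℂ) • v‖ - ‖reg ν a v - (c : ℂ) • v‖)]
    have m3 := Finset.sum_le_card_nsmul _ _ _ m2
    have m4 : (((S ×ˢ S).image fun p => p.1 * p.2).card : ℝ) ≤ 9 := by
      have := Finset.card_image_le (s := S ×ˢ S) (f := fun p => p.1 * p.2)
      rw [Finset.card_product] at this
      exact_mod_cast this.trans (Nat.mul_le_mul h3 h3)
    have m0 : 0 ≤ M := Finset.sum_nonneg fun _ _ => sq_nonneg _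
    have m5 : M = 2 * (S'.card * ‖v‖ ^ 2) - 2 * (c * ∑ s ∈ S', ∫ x, f (s * x) * f x ∂ν) := by
      have : ∀ s, ‖reg ν s v - (c : ℂ) • v‖ ^ 2 =
          2 * ‖v‖ ^ 2 - 2 * (c * ∫ x, f (s * x) * f x ∂ν) := fun s => by
        rw [@norm_sub_sq ℂ, (reg ν s).norm_map, norm_smul, nc, inner_smul_right,
          RCLike.re_to_complex, Complex.re_ofReal_mul, a1]
        ring
      simp only [hM, this, Finset.sum_sub_distrib, ← Finset.mul_sum, Finset.sum_const, nsmul_eq_mul]
    rw [nsmul_eq_mul] at m3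
    have m6 := m3.trans (mul_le_mul_of_nonneg_right m4 (by linarith))
    have m7 := mul_le_mul_of_nonneg_left m6 (sq_nonneg C)
    have hp : 0 < 36 * C ^ 2 := by positivity
    rw [← a2]
    refine le_of_mul_le_mul_left ?_ hp
    rw [sub_mul, mul_sub, ← mul_assoc _ _⁻¹, mul_inv_cancel₀ hp.ne']
    rw [m5] at m7
    nlinarith
  have k1 := key 1 (by simp)
  have k2 := key (-1) (by simp)
  exact abs_le.mpr ⟨by linarith, by linarith⟩

theorem infinite_inv {n : ℕ} (hn : 3 ≤ n) : {g : SOG (Fin n) | g * g = 1 ∧ g ≠ 1}.Infinite := by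
  let x : Fin 3 → Fin n := Fin.castLE hn
  have hx : Function.Injective x := Fin.castLE_injective hn
  have n01 : x 0 ≠ x 1 := hx.ne (by decide)
  have n02 : x 0 ≠ x 2 := hx.ne (by decide)
  have n12 : x 1 ≠ x 2 := hx.ne (by decide)
  refine Set.Infinite.of_image (fun g => inc _ g (x 0) (x 0))
    ((Set.Ioo_infinite (zero_lt_one (α := ℝ))).mono fun y hy => ?_)
  have s1 : SO (sp 1 (sg2 (x 1) (x 2) (-1) (-1))) := so_sp 1 _ _ (by simp) (by simp) (by simp)
  have t1 := sp_symm (π := 1) (e := sg2 (x 1) (x 2) (-1) (-1)) (fun _ => rfl) fun _ => rfl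
  obtain ⟨g, hg⟩ := emb_inc.surj _ ((so_rot (adm_giv n01) (Real.arccos y)).mul s1)
  have e : inc _ g (x 0) (x 0) = y := by
    rw [hg, mul_sp]
    simp [rot_apply n01, sg2, n01, n02, n01.symm,
      Real.cos_arccos (x := y) (by linarith [hy.1]) hy.2.le]
  refine ⟨g, ⟨emb_inc.inj ?_, fun h => by simp [h, hy.2.ne'] at e⟩, e⟩
  have := rot_cj s1 (giv (x 0) (x 1)) (Real.arccos y)
  rw [sp_giv, t1] at this
  rw [map_mul, map_one, hg, Matrix.mul_assoc, ← Matrix.mul_assoc (sp _ _), ← this]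
  simp [sg2, n01, n02, n12, rot_neg, ← rot_add (adm_giv n01), rot_zero]

theorem sq_comm {G : Type} [Group G] (S : Finset G) (h2 : S.card ≤ 2) (hS : ∀ g ∈ S, g⁻¹ ∈ S) :
    ∀ g ∈ Submonoid.closure (S : Set G), ∀ h ∈ Submonoid.closure (S : Set G),
      Commute (g * g) (h * h) := by
  classical
  by_cases hc : ∀ x ∈ S, ∀ y ∈ S, Commute x y
  · intro g hg h hh
    have : Commute g h := Submonoid.closure_induction₂ (motive := fun a b _ _ => Commute a b)
      (fun x y => fun hx hy => hc x hx y hy) (fun _ _ => Commute.one_left _)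
      (fun _ _ => Commute.one_right _) (fun _ _ _ _ _ _ a b => a.mul_left b)
      (fun _ _ _ _ _ _ a b => a.mul_right b) hg hh
    exact (this.mul_left this).mul_right (this.mul_left this)
  push Not at hc
  obtain ⟨x, hx, y, hy, hxy⟩ := hc
  have e : ∀ z ∈ S, z = x ∨ z = y := by
    have : ({x, y} : Finset G) = S := Finset.eq_of_subset_of_card_le
      (by simp [Finset.insert_subset_iff, hx, hy])
      (by rwa [Finset.card_pair (by rintro rfl; exact hxy (Commute.refl _))])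
    simp [← this]
  have ix : x⁻¹ = x := (e _ (hS x hx)).resolve_right fun h =>
    hxy (h ▸ (Commute.refl x).inv_right)
  have iy : y⁻¹ = y := (e _ (hS y hy)).resolve_left fun h =>
    hxy (h ▸ (Commute.refl y).inv_left)
  have xx : x * x = 1 := by nth_rw 1 [← ix]; exact inv_mul_cancel x
  obtain ⟨r, hr⟩ : ∃ r, r = x * y := ⟨_, rfl⟩
  have s : ∀ m : ℤ, x * r ^ m = r ^ (-m) * x := fun m => by
    have : SemiconjBy x r r⁻¹ := by
      rw [SemiconjBy, hr, _root_.mul_inv_rev, ix, iy, ← mul_assoc, xx, mul_assoc, xx, one_mul,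
        mul_one]
    rw [(this.zpow_right m).eq, _root_.inv_zpow']
  have ey : y = x * r := by rw [hr, ← mul_assoc, xx, one_mul]
  have p : ∀ g ∈ Submonoid.closure (S : Set G), ∃ m : ℤ, g * g = r ^ m := fun g hg => by
    have : ∃ m : ℤ, g = r ^ m ∨ g = r ^ m * x := by
      induction hg using Submonoid.closure_induction_left with
      | one => exact ⟨0, .inl (by simp)⟩
      | mul_left z hz g _ ih =>
        obtain ⟨m, rfl | rfl⟩ := ih <;> rcases e z hz with rfl | rfl
        · exact ⟨_, .inr (s m)⟩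
        · exact ⟨_, .inr (by rw [ey, mul_assoc, ← _root_.zpow_one_add, s])⟩
        · exact ⟨_, .inl (by rw [← mul_assoc, s, mul_assoc, xx, mul_one])⟩
        · exact ⟨_, .inl (by rw [ey, ← mul_assoc, mul_assoc x, ← _root_.zpow_one_add, s, mul_assoc, xx,
            mul_one])⟩
    obtain ⟨m, rfl | rfl⟩ := this
    · exact ⟨_, (_root_.zpow_add r m m).symm⟩
    · exact ⟨0, by rw [mul_assoc, ← mul_assoc x, s, mul_assoc, xx, mul_one, ← _root_.zpow_add,
        add_neg_cancel]⟩
  intro g hg h hh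
  obtain ⟨a, ha⟩ := p g hg
  obtain ⟨b, hb⟩ := p h hh
  rw [ha, hb]
  exact Commute.zpow_zpow_self r a b

theorem three_le {n : ℕ} (hn : 3 ≤ n) (S : Finset (Matrix (Fin n) (Fin n) ℝ))
    (h1 : ∀ s ∈ S, SO s) (h2 : ∀ s ∈ S, sᵀ ∈ S) (h3 : ∀ g, SO g → g ∈ closure
      (Submonoid.closure (S : Set (Matrix (Fin n) (Fin n) ℝ)) : Set (Matrix (Fin n) (Fin n) ℝ))) :
    3 ≤ S.card := by
  by_contra hc
  let T := S.preimage (inc _) emb_inc.inj.injOn
  have e : (S : Set (Matrix (Fin n) (Fin n) ℝ)) = inc _ '' T := by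
    ext s
    simp only [T, Finset.coe_preimage, Set.mem_image, Set.mem_preimage, Finset.mem_coe]
    refine ⟨fun h => ?_, by rintro ⟨g, hg, rfl⟩; exact hg⟩
    obtain ⟨g, rfl⟩ := emb_inc.surj s (h1 s h)
    exact ⟨g, h, rfl⟩
  have k := sq_comm T ((Finset.card_le_card_of_injOn (inc _) (fun g hg => by simpa [T] using hg)
    emb_inc.inj.injOn).trans (by omega : S.card ≤ 2)) fun g hg => by
      rw [Finset.mem_preimage] at hg ⊢
      rw [emb_inc.inv]
      exact h2 _ hg
  rw [e, ← MonoidHom.map_mclosure] at h3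
  have k1 : ∀ g, SO g → ∀ h, SO h → g * g * (h * h) = h * h * (g * g) := fun g hg h hh => by
    refine closure_minimal (t := {h | g * g * (h * h) = h * h * (g * g)}) ?_
      (isClosed_eq (by fun_prop) (by fun_prop)) (h3 h hh)
    rintro _ ⟨b, hb, rfl⟩
    refine closure_minimal (t := {g | g * g * (inc _ b * inc _ b) = inc _ b * inc _ b * (g * g)})
      ?_ (isClosed_eq (by fun_prop) (by fun_prop)) (h3 g hg)
    rintro _ ⟨a, ha, rfl⟩
    simpa only [map_mul, Set.mem_ofPred_eq] using congrArg (inc _) (k a ha b hb).eq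
  let x : Fin 3 → Fin n := Fin.castLE hn
  have hx : Function.Injective x := Fin.castLE_injective hn
  have n01 : x 0 ≠ x 1 := hx.ne (by decide)
  have n02 : x 0 ≠ x 2 := hx.ne (by decide)
  have n12 : x 1 ≠ x 2 := hx.ne (by decide)
  have := k1 _ (so_rot (adm_giv n01) (Real.pi / 2 / 2)) _ (so_rot (adm_giv n02) (Real.pi / 2 / 2))
  rw [← rot_add (adm_giv n01), ← rot_add (adm_giv n02), add_halves] at this
  have := congrFun (congrFun this (x 1)) (x 2)
  simp [rot_giv_mul n01, rot_giv_mul n02, rot_apply n01, rot_apply n02, n02, n12,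
    n01.symm] at this

end Pool.Agent.P.MP_839d28_al.K3
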