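import Pool.Agent.P.MP_839d28_al.K3.Pieces

/-! Three involutions in large dimensions, with a uniform constant. -/

open Matrix Equiv

set_option linter.unusedSectionVars false

namespace Pool.Agent.P.MP_839d28_al.K3

section

variable {ι J : Type} [Fintype ι] [DecidableEq ι] [DecidableEq J]

theorem dis {T T' : Set ι} {g h : Matrix ι ι ℝ} (hg : Supp T g) (hh : Supp T' h)
    (hd : Disjoint T T') : g * h = g + h - 1 := by
  have : (g - 1) * (h - 1) = 0 := by
    ext i j
    rw [mul_apply]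
    refine Finset.sum_eq_zero fun k _ => ?_
    by_cases hk : k ∈ T
    · simp [hh k j (Or.inl (Set.disjoint_left.mp hd hk))]
    · simp [hg i k (Or.inr hk)]
  rw [sub_mul, mul_sub, mul_one, one_mul, sub_eq_zero, sub_eq_iff_eq_add] at this
  rw [this]
  abel

theorem dis_comm {T T' : Set ι} {g h : Matrix ι ι ℝ} (hg : Supp T g) (hh : Supp T' h)
    (hd : Disjoint T T') : Commute g h := by
  rw [Commute, SemiconjBy, dis hg hh hd, dis hh hg hd.symm, add_comm]

/-- the product of matrices with disjoint supports -/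
def pp (A : Finset J) (g : J → Matrix ι ι ℝ) : Matrix ι ι ℝ := 1 + ∑ j ∈ A, (g j - 1)

theorem supp_pp {T : J → Set ι} {g : J → Matrix ι ι ℝ} (hg : ∀ j, Supp (T j) (g j))
    (A : Finset J) : Supp (⋃ j ∈ A, T j) (pp A g) := by
  intro a b hab
  rw [pp, Matrix.add_apply, add_eq_left, Matrix.sum_apply]
  refine Finset.sum_eq_zero fun j hj => ?_
  rw [Matrix.sub_apply, (hg j).mono (Set.subset_biUnion_of_mem (u := T) hj) a b hab, sub_self]

theorem pp_insert {T : J → Set ι} {g : J → Matrix ι ι ℝ} (hg : ∀ j, Supp (T j) (g j))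
    (hT : ∀ i j, i ≠ j → Disjoint (T i) (T j)) {A : Finset J} {j : J} (hj : j ∉ A) :
    pp (insert j A) g = g j * pp A g ∧ Commute (g j) (pp A g) := by
  have hd : Disjoint (T j) (⋃ i ∈ A, T i) := by
    simp only [Set.disjoint_iUnion_right]
    exact fun i hi => hT j i (by rintro rfl; exact hj hi)
  refine ⟨?_, dis_comm (hg j) (supp_pp hg A) hd⟩
  rw [dis (hg j) (supp_pp hg A) hd, pp, pp, Finset.sum_insert hj]
  abel

theorem pp_sq {T : J → Set ι} {g : J → Matrix ι ι ℝ} (hg : ∀ j, Supp (T j) (g j))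
    (hT : ∀ i j, i ≠ j → Disjoint (T i) (T j)) (h : ∀ j, g j * g j = 1) (A : Finset J) :
    pp A g * pp A g = 1 ∧ (pp A g).det = ∏ j ∈ A, (g j).det := by
  induction A using Finset.induction_on with
  | empty => simp [pp]
  | insert j A hj ih =>
    obtain ⟨h1, h2⟩ := pp_insert hg hT hj
    rw [h1, h2.symm.mul_mul_mul_comm, h, ih.1, det_mul, ih.2, Finset.prod_insert hj]
    simp

theorem pp_cj {h : Matrix ι ι ℝ} (hh : SO h) (A : Finset J) (g : J → Matrix ι ι ℝ) :
    h * pp A g * hᵀ = pp A fun j => h * g j * hᵀ := by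
  simp only [pp, mul_add, add_mul, Finset.mul_sum, Finset.sum_mul, mul_sub, sub_mul, mul_one,
    hh.mul_transpose]

theorem extract [Fintype J] {T T' : J → Set ι} {g g' : J → Matrix ι ι ℝ}
    (hg : ∀ j, Supp (T j) (g j)) (hT : ∀ i j, i ≠ j → Disjoint (T i) (T j))
    (h : ∀ j, g j * g j = 1) (hg' : ∀ j, Supp (T' j) (g' j))
    (hT' : ∀ i j, i ≠ j → Disjoint (T' i) (T' j)) (h' : ∀ j, g' j * g' j = 1) (a b : J)
    (hd : ∀ i j, i ≠ a ∨ j ≠ b → Disjoint (T i) (T' j)) :
    pp Finset.univ g * pp Finset.univ g' * (pp Finset.univ g * pp Finset.univ g') =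
      g a * g' b * (g a * g' b) := by
  obtain ⟨a1, a2⟩ := pp_insert hg hT (Finset.notMem_erase a Finset.univ)
  obtain ⟨b1, b2⟩ := pp_insert hg' hT' (Finset.notMem_erase b Finset.univ)
  rw [Finset.insert_erase (Finset.mem_univ _)] at a1 b1
  have s1 := supp_pp hg (Finset.univ.erase a)
  have s2 := supp_pp hg' (Finset.univ.erase b)
  have c1 := dis_comm s1 (hg' b) (by
    simp only [Set.disjoint_iUnion_left]
    exact fun i hi => hd i b (Or.inl (Finset.ne_of_mem_erase hi)))
  have c2 := dis_comm (hg a) s2 (by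
    simp only [Set.disjoint_iUnion_right]
    exact fun i hi => hd a i (Or.inr (Finset.ne_of_mem_erase hi)))
  have c3 := dis_comm s1 s2 (by
    simp only [Set.disjoint_iUnion_right, Set.disjoint_iUnion_left]
    exact fun i _ j hj => hd j i (Or.inl (Finset.ne_of_mem_erase hj)))
  rw [a1, b1, c1.mul_mul_mul_comm,
    ((a2.mul_right c2).mul_left (c1.symm.mul_right b2)).symm.mul_mul_mul_comm,
    c3.symm.mul_mul_mul_comm, (pp_sq hg hT h _).1, (pp_sq hg' hT' h' _).1, mul_one, mul_one]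

theorem SO.pow {a : Matrix ι ι ℝ} (ha : SO a) (q : ℕ) : SO (a ^ q) := by
  induction q with
  | zero => simpa using SO.one
  | succ q ih => rw [pow_succ]; exact ih.mul ha

theorem N_pow {V : Type} [NormedAddCommGroup V] [InnerProductSpace ℂ V] {R : MatRep ι V} {v : V}
    {a : Matrix ι ι ℝ} (ha : SO a) {ε : ℝ} (h : R.N v a ≤ ε) (q : ℕ) :
    R.N v (a ^ q) ≤ q * ε := by
  induction q with
  | zero => simp [R.N_one]
  | succ q ih =>
    have := R.N_mul v (SO.pow ha q) ha
    rw [pow_succ]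
    push_cast
    linarith

end

theorem sidon {i j k l : ℕ} (hi : i < 66) (hj : j < 66) (hk : k < 66) (hl : l < 66) (h : k ≠ l)
    (e : i + 200 * i ^ 2 + (l + 200 * l ^ 2) = j + 200 * j ^ 2 + (k + 200 * k ^ 2)) :
    i = k ∧ j = l := by
  have e1 : i + l = j + k := by omega
  have e2 : i ^ 2 + l ^ 2 = j ^ 2 + k ^ 2 := by omega
  zify at e1 e2
  have e3 : ((i : ℤ) - k) * (k - l) = 0 := by
    have : (j : ℤ) = i + l - k := by linarith
    rw [this] at e2
    linarith
  rcases mul_eq_zero.mp e3 with h | h <;> omega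

theorem disj_iv {n b x y : ℕ} (h : x ≠ y) :
    Disjoint (Iv n (2 * b) (2 * x * b)) (Iv n (2 * b) (2 * y * b)) := by
  have lt : ∀ t t', t < t' → 2 * t * b + 2 * b ≤ 2 * t' * b := fun t t' h => by
    rw [← add_mul]
    exact Nat.mul_le_mul_right _ (by omega)
  rw [Set.disjoint_left]
  intro i h1 h2
  simp only [Iv, Set.mem_ofPred_eq] at h1 h2
  rcases lt_or_gt_of_ne h with h | h <;> have := lt _ _ h <;> omega

/-- the reflection `i ↦ c - i` modulo `n` -/
def rf (n c : ℕ) (hc : c < n) (i : Fin n) : Fin n :=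
  ⟨if i.val ≤ c then c - i.val else n + c - i.val, by
    have := i.2
    split_ifs <;> omega⟩

theorem rf_inv (n c : ℕ) (hc : c < n) : Function.Involutive (rf n c hc) := fun i => by
  have := i.2
  ext
  simp only [rf]
  split_ifs <;> omega

theorem exists_rf (n c : ℕ) (hc : 2 * c < n) : ∃ t : Matrix (Fin n) (Fin n) ℝ, SO t ∧ t * t = 1 ∧
    ∃ e, t = sp (rf_inv n (2 * c) hc).toPerm e := by
  let x : Fin n := ⟨c, by omega⟩
  have s := so_sp (rf_inv n (2 * c) hc).toPerm x x (sign_sq _) (one_mul 1) (mul_one _)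
  refine ⟨_, s, ?_, _, rfl⟩
  have := s.1
  rwa [sp_symm (π := (rf_inv n (2 * c) hc).toPerm) (rf_inv _ _ hc)
    (sg2_inv _ (Fin.ext (by
      simp only [Function.Involutive.coe_toPerm, rf, x]
      split_ifs <;> omega)) (.inr rfl))] at this

theorem has3_large : ∃ (N : ℕ) (C : ℝ), 0 ≤ C ∧ ∀ n, N ≤ n → Has3 n C := by
  classical
  obtain ⟨C, hC, h⟩ := pieces
  obtain ⟨P, hP⟩ : ∃ P : ℕ, P = 1000000 := ⟨_, rfl⟩
  obtain ⟨r, hr⟩ : ∃ r : ℕ, r = 8 * (4 * P + 2) := ⟨_, rfl⟩
  refine ⟨4 * (4 * P + 2), (r + 1) ^ 2 * (3 * ((2 * r + 1) * (C * (24 * P + 2) + 2 * r))),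
    by positivity, fun n hn => ?_⟩
  obtain ⟨s, a1, a2⟩ : ∃ s, (4 * P + 2) * (4 * 8 ^ s) ≤ n ∧ n ≤ r * (4 * 8 ^ s) := by
    have h0 : 0 < 4 * (4 * P + 2) := by omega
    have a1 := Nat.pow_log_le_self 8 (x := n / (4 * (4 * P + 2))) (Nat.div_pos hn h0).ne'
    have a2 := Nat.lt_pow_succ_log_self (b := 8) (by norm_num) (n / (4 * (4 * P + 2)))
    rw [Nat.le_div_iff_mul_le h0] at a1
    rw [Nat.div_lt_iff_lt_mul h0, pow_succ] at a2
    exact ⟨_, by linarith, by rw [hr]; linarith⟩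
  obtain ⟨c, hc⟩ : ∃ c, c = 2 * 8 ^ s := ⟨_, rfl⟩
  have c0 : 0 < c := by rw [hc]; positivity
  have c1 : 4 * 8 ^ s = 2 * c := by omega
  have c2 : 8 ^ (s + 1) = 2 * (2 * c) := by rw [pow_succ]; omega
  rw [c1] at a1 a2
  have bn : 2 * (2 * c) ≤ n := le_trans (Nat.mul_le_mul_right _ (by omega)) a1
  obtain ⟨J, _, Z, z1, z2, z3, z4⟩ := h s n (c2 ▸ bn)
  rw [c2] at z2 z4
  obtain ⟨t1, s1, q1, e1, r1⟩ := exists_rf n 0 (by omega)
  obtain ⟨t2, s2, q2, e2, r2⟩ := exists_rf n c (by omega)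
  obtain ⟨b, hb⟩ : ∃ b, b = 2 * c := ⟨_, rfl⟩
  have sh : ∀ i j, (t2 * t1) i j ≠ 0 → i.val = j.val + b ∨ i.val + n = j.val + b := by
    intro i j hij
    rw [r1, r2, sp_mul] at hij
    have := congrArg Fin.val (sp_ne hij)
    have := j.2
    simp only [Perm.mul_apply, Function.Involutive.coe_toPerm, rf] at *
    split_ifs at * <;> omega
  rw [← hb] at a1 a2 bn z2 z4
  have b0 : 0 < b := by omega
  have sa := s2.mul s1
  set a := t2 * t1 with ha
  have sq := SO.pow sa
  have w : ∀ g, Supp (Iv n (2 * b) 0) g → ∀ q, (q + 2) * b ≤ n →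
      Supp (Iv n (2 * b) (q * b)) (a ^ q * g * (a ^ q)ᵀ) := fun g hg q => by
    induction q with
    | zero => intro _; simpa using hg
    | succ q ih =>
      intro hq
      simp only [add_mul, one_mul] at hq ih ⊢
      have := Supp.cj (T' := Iv n (2 * b) (q * b + b)) (ih (by omega)) sa.mul_transpose
        fun i j h1 h2 => by
          have := sh i j h1
          simp only [Iv, Set.mem_ofPred_eq] at h2 ⊢
          omega
      simpa only [pow_succ', transpose_mul, Matrix.mul_assoc] using this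
  let ν : J → ℕ := fun j => (Fintype.equivFin J j).val
  have ν1 : ∀ j, ν j < 66 := fun j => (Fintype.equivFin J j).2.trans_le z1
  have ν2 : ∀ i j, ν i = ν j → i = j := fun i j h => (Fintype.equivFin J).injective (Fin.ext h)
  let p : J → ℕ := fun j => ν j + 200 * ν j ^ 2
  have p1 : ∀ j, p j ≤ P := fun j => by
    have := ν1 j
    simp only [p]
    nlinarith
  have p2 : ∀ i j, i ≠ j → p i ≠ p j := fun i j hij h => by
    have := ν1 i
    have := ν1 j
    refine hij (ν2 _ _ ?_)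
    simp only [p] at h
    omega
  let G : ℕ → J → Matrix (Fin n) (Fin n) ℝ := fun q j =>
    a ^ (2 * (q + p j)) * Z j * (a ^ (2 * (q + p j)))ᵀ
  have g1 : ∀ q ≤ P, ∀ j, Supp (Iv n (2 * b) (2 * (q + p j) * b)) (G q j) := fun q hq j =>
    w _ (z2 j).2.2 _ (le_trans (Nat.mul_le_mul_right _ (by have := p1 j; omega)) a1)
  have g2 : ∀ q i j, i ≠ j → Disjoint (Iv n (2 * b) (2 * (q + p i) * b))
      (Iv n (2 * b) (2 * (q + p j) * b)) := fun q i j h => disj_iv (by have := p2 i j h; omega)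
  have cc : ∀ q (x y : Matrix (Fin n) (Fin n) ℝ), a ^ q * x * (a ^ q)ᵀ * (a ^ q * y * (a ^ q)ᵀ) =
      a ^ q * (x * y) * (a ^ q)ᵀ := fun q x y => by
    calc _ = a ^ q * x * ((a ^ q)ᵀ * a ^ q) * y * (a ^ q)ᵀ := by simp only [Matrix.mul_assoc]
      _ = _ := by rw [(sq q).1]; simp only [Matrix.mul_assoc, Matrix.one_mul]
  have g3 : ∀ q j, G q j * G q j = 1 := fun q j => by
    rw [cc, (z2 j).2.1, mul_one, (sq _).mul_transpose]
  set σ := pp Finset.univ (G 0) with hσ
  obtain ⟨u1, u2⟩ := pp_sq (g1 0 (by omega)) (g2 0) (g3 0) Finset.univ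
  have u3 : σᵀ = σ := by
    simp only [hσ, pp, G, transpose_add, transpose_sum, transpose_sub, transpose_mul,
      transpose_one, transpose_transpose, (z2 _).1, Matrix.mul_assoc]
  have sσ : SO σ := ⟨by rw [u3, u1], by
    rw [u2]
    simp only [G, det_mul, det_transpose, (sq _).2, one_mul, mul_one, z3]⟩
  have g4 : ∀ q, a ^ (2 * q) * σ * (a ^ (2 * q))ᵀ = pp Finset.univ (G q) := fun q => by
    rw [hσ, pp_cj (sq _)]
    congr 1
    ext1 j
    simp only [G, zero_add, mul_add 2 q, pow_add, transpose_mul, Matrix.mul_assoc]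
  refine ⟨{t1, t2, σ}, Finset.card_le_three, ?_, fun V _ _ _ R v ε hε h1 h2 g hg => ?_⟩
  · simp only [Finset.mem_insert, Finset.mem_singleton, forall_eq_or_imp, forall_eq]
    exact ⟨⟨s1, q1⟩, ⟨s2, q2⟩, sσ, u1⟩
  have na : R.N v a ≤ ε := h1 t2 (by simp) t1 (by simp)
  have np : ∀ q ≤ P, R.N v (a ^ (2 * q)) ≤ 2 * P * ε := fun q hq =>
    (N_pow sa na _).trans (by
      have : (q : ℝ) ≤ P := by exact_mod_cast hq
      push_cast
      gcongr)
  have k0 := z4 V R v ((24 * P + 2) * ε) (by positivity) fun i j hij => by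
    have x1 := extract (g1 _ (p1 j)) (g2 _) (g3 _) (g1 _ (p1 i)) (g2 _) (g3 _) i j
      fun k l hkl => disj_iv fun e => by
        have := sidon (ν1 k) (ν1 l) (ν1 i) (ν1 j) (fun h => hij (ν2 _ _ h))
          (by simp only [p] at e; omega)
        exact hkl.elim (fun h => h (ν2 _ _ this.1)) fun h => h (ν2 _ _ this.2)
    rw [← g4, ← g4] at x1
    simp only [G] at x1
    rw [add_comm (p j), cc, cc] at x1
    have y1 := sq (2 * p i)
    have y2 := sq (2 * p j)
    have y3 := sq (2 * (p i + p j))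
    have y4 := (SO.cj y2 sσ).mul (SO.cj y1 sσ)
    have x2 : R.N v (a ^ (2 * p j) * σ * (a ^ (2 * p j))ᵀ *
        (a ^ (2 * p i) * σ * (a ^ (2 * p i))ᵀ)) ≤ (8 * P + 1) * ε := by
      have k1 := h2 σ (by simp) _ (y2.transpose.mul y1)
      have k2 := R.N_mul v y2.transpose y1
      have k3 := R.N_mul v y2 (SO.cj sσ (y2.transpose.mul y1))
      have k4 := R.N_mul v (y2.mul (SO.cj sσ (y2.transpose.mul y1))) y1.transpose
      rw [R.N_transpose v y2] at k2
      rw [R.N_transpose v y1] at k4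
      simp only [u3, Matrix.mul_assoc] at k1 k3 k4 ⊢
      linarith [np _ (p1 i), np _ (p1 j)]
    have x3 := R.N_mul v y4 y4
    have x4 : R.N v (a ^ (2 * (p i + p j)))ᵀ ≤ 4 * P * ε := by
      have := R.N_mul v y1 y2
      rw [R.N_transpose v y3, mul_add, pow_add]
      linarith [np _ (p1 i), np _ (p1 j)]
    have x5 := cj_of_N y3.transpose x4 _ (y4.mul y4)
    rw [x1] at x3 x5
    rw [transpose_transpose, ← Matrix.mul_assoc, ← Matrix.mul_assoc, y3.1, one_mul,
      Matrix.mul_assoc, y3.1, mul_one] at x5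
    linarith
  have k1 : ∀ t : ℕ, Q R v (Iv n (2 * b) (t * b)) ((C * (24 * P + 2) + 2 * t) * ε) := by
    intro t
    induction t with
    | zero => exact k0.mono (by simp) (by simp [mul_assoc])
    | succ t ih =>
      refine (ih.move sa (cj_of_N sa na) fun i j h1 h2 => ?_).mono subset_rfl
        (by push_cast; linarith)
      have := sh i j h1
      have := j.2
      simp only [Iv, Set.mem_ofPred_eq, add_mul, one_mul] at h2 ⊢
      omega
  have d0 : 0 ≤ (C * (24 * P + 2) + 2 * r) * ε := by positivity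
  have k2 := path_star d0 b0 r (fun t ht => (k1 t).mono subset_rfl (by gcongr)) (by omega)
  have := star_bound (R := R) (v := v) (δ := (2 * r + 1) * ((C * (24 * P + 2) + 2 * r) * ε))
    (by positivity) b0 (by omega) a2 (fun t => by
      rcases le_total t r with ht | ht
      · exact (k2 t ht).mono subset_rfl (by gcongr)
      · refine (k2 r le_rfl).mono (fun i hi => ?_) le_rfl
        have := i.2
        have := Nat.mul_le_mul_right b ht
        simp only [Iv, Set.mem_union, Set.mem_ofPred_eq] at hi ⊢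
        omega) g hg
  refine this.trans_eq ?_
  ring

theorem has3_all : ∃ C : ℝ, 0 < C ∧ ∀ n, 3 ≤ n → Has3 n C := by
  obtain ⟨C1, c1, h1⟩ := has3_small
  obtain ⟨N, C2, c2, h2⟩ := has3_large
  refine ⟨(N + 1) ^ 3 * C1 + C2 + 1, by positivity, fun n hn => ?_⟩
  have p : 0 ≤ ((N : ℝ) + 1) ^ 3 * C1 := by positivity
  rcases le_total N n with h | h
  · exact (h2 n h).mono (by linarith)
  · refine (h1 n hn).mono ?_
    have : ((n : ℝ) + 1) ^ 3 * C1 ≤ (N + 1) ^ 3 * C1 := by gcongr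
    linarith

end Pool.Agent.P.MP_839d28_al.K3
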