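import Pool.Agent.P.MP_839d28_al.K3.Small
import Pool.Agent.P.MP_839d28_al.Cube

/-! A Kazhdan set made of squares of products of two symmetric involutions. -/

open Matrix
open scoped Quaternion

set_option linter.unusedSectionVars false

namespace Pool.Agent.P.MP_839d28_al.K3

/-- squares of products of two symmetric involutions -/
def Sq {ι : Type} [Fintype ι] [DecidableEq ι] (g : Matrix ι ι ℝ) : Prop :=
  ∃ X : Bool → Matrix ι ι ℝ, (∀ b, (X b)ᵀ = X b ∧ X b * X b = 1) ∧
    (X true * X false).det = 1 ∧ g = X true * X false * (X true * X false)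

theorem sq_rot {ι : Type} [Fintype ι] [DecidableEq ι] {U X : Matrix ι ι ℝ} (hU : Adm U)
    (h1 : Xᵀ = X) (h2 : X * X = 1) (h3 : U * X = -(X * U)) (t : ℝ) : Sq (rot U t) := by
  have e : ∀ s, X * rot U s * X = rot U (-s) := fun s => by
    rw [← rot_conj h2, Matrix.mul_assoc, h3, mul_neg, ← Matrix.mul_assoc, h2, one_mul, rot_neg]
  have e' : X * (X * rot U (t / 2)) = rot U (t / 2) := by rw [← Matrix.mul_assoc, h2, one_mul]
  refine ⟨fun b => cond b X (X * rot U (t / 2)), fun b => ?_, ?_, ?_⟩
  · cases b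
    · constructor
      · simp only [cond_false]
        rw [transpose_mul, h1, rot_transpose hU, ← e, Matrix.mul_assoc, h2, mul_one]
      · simp only [cond_false]
        rw [← Matrix.mul_assoc, e, ← rot_add hU, neg_add_cancel, rot_zero]
    · exact ⟨h1, h2⟩
  · simp only [cond_true, cond_false, e']
    exact (so_rot hU _).2
  · simp only [cond_true, cond_false, e']
    rw [← rot_add hU, add_halves]

theorem sq_el {m : Type} [Fintype m] [DecidableEq m] {i j : Fin 3} (h : i ≠ j)
    (M : Matrix m m (ZMod 2)) : Sq (pm (el i j M)) := by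
  obtain ⟨k, hi, hj⟩ : ∃ k, i ≠ k ∧ k ≠ j := by revert i j; decide
  have e : el i j M = (el i k M ∘ el k j 1) ∘ (el i k M ∘ el k j 1) := by
    funext x l
    simp only [Function.comp]
    by_cases hl : l = i
    · simp only [hl, el_same, el_ne hi, el_ne hi.symm, el_ne h.symm, el_ne hj.symm, one_mulVec,
        add_assoc, vec_two, add_zero, mulVec_add]
      rw [add_left_comm (M *ᵥ x k), vec_two, add_zero]
    · by_cases hk : l = k
      · simp only [hk, el_same, el_ne hi.symm, el_ne h.symm, el_ne hj.symm, one_mulVec,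
          add_assoc, vec_two, add_zero]
      · simp only [el_ne hl, el_ne hk]
  refine ⟨fun b => cond b (pm (el i k M)) (pm (el k j 1)), fun b => ?_,
    ((so_el hi M).mul (so_el hj 1)).2, by rw [e, pm_comp, pm_comp]; rfl⟩
  cases b
  · exact ⟨pm_transpose (el_inv hj 1), pm_sq (el_inv hj 1)⟩
  · exact ⟨pm_transpose (el_inv hi M), pm_sq (el_inv hi M)⟩

theorem sq_cube : ∃ C : ℝ, 0 ≤ C ∧ ∀ s, ∃ S : Finset (Matrix (Cb (ZMod (s + 1)))
    (Cb (ZMod (s + 1))) ℝ), S.card ≤ 33 ∧ (∀ g ∈ S, Sq g) ∧ Kaz S C := by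
  classical
  obtain ⟨C, hC, h⟩ := su2_kaz
  refine ⟨26 * (C + 544), by positivity, fun s => ?_⟩
  set e : ZMod (s + 1) → ZMod 2 := Pi.single 0 1 with he
  have ee : e ⬝ᵥ e = 1 := by simp [he]
  set p0 : Cb (ZMod (s + 1)) × Cb (ZMod (s + 1)) := (Pi.single 0 e, Pi.single 0 e) with hp0
  set q0 : Cb (ZMod (s + 1)) × Cb (ZMod (s + 1)) := (Pi.single 0 e + Pi.single 1 e, Pi.single 1 e)
    with hq0
  have hp : cdot p0.2 p0.1 = 1 := by simp [hp0, cdot_single, ee]
  have hq : cdot q0.2 q0.1 = 1 := by simp [hq0, form_cdot.add, cdot_single, ee]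
  have hpq : cdot p0.2 q0.1 + cdot q0.2 p0.1 = 1 := by
    simp [hp0, hq0, form_cdot.add, cdot_single, ee]
  have hQ := form_cdot.qhom hp hq hpq
  refine ⟨(Finset.univ.image fun a => qmap (pl cdot p0) (pl cdot q0) (sg a)) ∪
    (Finset.univ.image fun c : Fin 3 × Fin 3 × Option Bool => if c.1 = c.2.1 then 1 else
      pm (el c.1 c.2.1 (c.2.2.elim 1 (gen2 s)))), ?_, ?_, ?_⟩
  · refine (Finset.card_union_le _ _).trans ?_
    refine (add_le_add Finset.card_image_le Finset.card_image_le).trans ?_
    simp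
  · intro g hg
    rcases Finset.mem_union.mp hg with hg | hg
    · obtain ⟨a, -, rfl⟩ := Finset.mem_image.mp hg
      obtain ⟨u, c, hu, -, e1⟩ := sg_circ a
      have x1 : ∀ z : Cb (ZMod (s + 1)), (pl cdot (0, z))ᵀ = pl cdot (0, z) := fun z => by
        ext u w
        by_cases h : u = w <;> simp [pl, h, eq_comm]
      have x2 : ∀ z : Cb (ZMod (s + 1)), pl cdot (0, z) * pl cdot (0, z) = 1 := fun z => by
        rw [form_cdot.pl_mul, form_cdot.zero_right, chi_zero, one_smul, ← form_cdot.pl_zero]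
        simp [form_cdot.two]
        rfl
      have a1 := form_cdot.pl_transpose hp
      have a2 := form_cdot.pl_sq hp
      have b1 := form_cdot.pl_transpose hq
      have b2 := form_cdot.pl_sq hq
      have ab := form_cdot.anti hpq
      rw [e1]
      rcases hu with rfl | rfl | rfl
      · rw [qmap_circ _ a2]
        exact sq_rot (form_cdot.adm hp) (x1 (Pi.single 0 e)) (x2 _)
          (form_cdot.anti (by simp [hp0, cdot_single, ee, form_cdot.zero_right])) _
      · have : ∀ t, qmap (pl cdot p0) (pl cdot q0) (circ qj t) = rot (pl cdot q0) t := fun t => by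
          simp [qmap, rot, b2]
          module
        rw [this]
        exact sq_rot (form_cdot.adm hq) (x1 (Pi.single 0 e)) (x2 _) (form_cdot.anti
          (by simp [hq0, cdot_single, ee, form_cdot.zero_right, form_cdot.add])) _
      · have c2 : pl cdot p0 * pl cdot q0 * (pl cdot p0 * pl cdot q0) = -1 := by
          rw [Matrix.mul_assoc, ← Matrix.mul_assoc (pl cdot q0), ab, neg_mul, Matrix.mul_assoc, b2]
          simp [a2]
        have : ∀ t, qmap (pl cdot p0) (pl cdot q0) (circ qk t) =
            rot (pl cdot p0 * pl cdot q0) t := fun t => by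
          simp [qmap, rot, c2]
          module
        rw [this]
        refine sq_rot (adm_of_sq (by simp [a1, b1, ab]) c2) (x1 (Pi.single 1 e)) (x2 _) ?_ _
        have k1 := form_cdot.anti (p := (0, Pi.single 1 e)) (q := q0)
          (by simp [hq0, cdot_single, ee, form_cdot.zero_right, form_cdot.add])
        have k2 := form_cdot.commute (p := p0) (q := (0, Pi.single 1 e))
          (by simp [hp0, cdot_single, form_cdot.zero_right])
        rw [Matrix.mul_assoc, k1, mul_neg, ← Matrix.mul_assoc, k2.eq, Matrix.mul_assoc]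
    · obtain ⟨c, -, rfl⟩ := Finset.mem_image.mp hg
      split_ifs with hc
      · exact ⟨fun _ => 1, by simp, by simp, by simp⟩
      · exact sq_el hc _
  · intro V _ _ _ R v ε hε hs g hg
    have h1 : ∀ i j (o : Option Bool), i ≠ j → R.N v (pm (el i j (o.elim 1 (gen2 s)))) ≤ ε := by
      intro i j o hij
      refine hs _ (Finset.mem_union_right _ (Finset.mem_image.mpr ⟨(i, j, o), Finset.mem_univ _,
        ?_⟩))
      simp [hij]
    have h2 := fun i k (hik : i ≠ k) M => el_move R (gen2 s) (gen2_single s)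
      (fun i j hij => h1 i j none hij) (fun i j b hij => h1 i j (some b) hij) hik M
    have h3 : ∀ t, R.N v (rot (pl cdot p0) t) ≤ C * ε := by
      intro t
      rw [← qmap_circ (pl cdot q0) (form_cdot.pl_sq hp)]
      exact h V (R.toQ hQ) v ε (fun a => hs _ (Finset.mem_union_left _
        (Finset.mem_image_of_mem _ (Finset.mem_univ a)))) _ (norm_circ pure_qi t)
    have h4 := transit 0 (fun n x z => ∀ t, R.N v (rot (pl cdot (x, z)) t) ≤ (C + 68 * n) * ε)
      (by simpa using h3) (by
        intro n i j M x z hij hxz ih t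
        have a1 := pm_conj cdot (el_inv hij M) (el_add i j M) (el i j M x) (el j i Mᵀ z) z
          (fun w => (cdot_el_el hij M z w).symm)
        rw [el_inv hij M x] at a1
        have a2 := so_rot (form_cdot.adm (p := (el i j M x, el j i Mᵀ z))
          ((cdot_el_el hij M z x).trans hxz)) t
        rw [← a1, rot_conj (pm_sq (el_inv hij M))]
        have a3 := R.N_mul v ((so_el hij M).mul a2) (so_el hij M)
        have a4 := R.N_mul v (so_el hij M) a2
        have a5 := h2 i j hij M
        have a6 := ih t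
        push_cast
        linarith)
    have h5 := form_cdot.knabe (by
      rw [card_cb, pow_succ]
      have : 0 < 8 ^ s := by positivity
      omega) R v (δ := (C + 544) * ε) (by positivity)
      (fun p hp t => by simpa [show (68 * 8 : ℝ) = 544 by norm_num] using h4 p.1 p.2 hp t) hg
    linarith

theorem pieces : ∃ C : ℝ, 0 ≤ C ∧ ∀ s n, 8 ^ (s + 1) ≤ n → ∃ (J : Type) (_ : Fintype J)
    (Z : J → Matrix (Fin n) (Fin n) ℝ), Fintype.card J ≤ 66 ∧
    (∀ j, (Z j)ᵀ = Z j ∧ Z j * Z j = 1 ∧ Supp (Iv n (8 ^ (s + 1)) 0) (Z j)) ∧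
    ∏ j, (Z j).det = 1 ∧ ∀ (V : Type) [NormedAddCommGroup V] [InnerProductSpace ℂ V]
      [FiniteDimensional ℂ V] (R : MatRep (Fin n) V) (v : V) (ε : ℝ), 0 ≤ ε →
      (∀ i j, i ≠ j → R.N v (Z i * Z j * (Z i * Z j)) ≤ ε) →
      Q R v (Iv n (8 ^ (s + 1)) 0) (C * ε) := by
  classical
  obtain ⟨C, hC, h⟩ := sq_cube
  refine ⟨C, hC, fun s n hn => ?_⟩
  obtain ⟨S, h1, h2, h3⟩ := h s
  choose X x1 x2 x3 using h2
  let e1 := Fintype.equivFinOfCardEq (card_cb s)
  let x : Cb (ZMod (s + 1)) → Fin n := fun i => Fin.castLE hn (e1 i)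
  have hx : Function.Injective x := (Fin.castLE_injective hn).comp e1.injective
  have hr : Set.range x = Iv n (8 ^ (s + 1)) 0 := by
    ext i
    simp only [Iv, Set.mem_range, Set.mem_ofPred_eq, zero_le, true_and, zero_add]
    exact ⟨by rintro ⟨j, rfl⟩; exact (e1 j).2, fun hi => ⟨e1.symm ⟨i, hi⟩, by simp [x]⟩⟩
  let e : Cb (ZMod (s + 1)) ⊕ {i // i ∉ Set.range x} ≃ Fin n :=
    ((Equiv.ofInjective x hx).sumCongr (Equiv.refl _)).trans (Equiv.sumCompl (· ∈ Set.range x))
  have e2 : ∀ j, e (Sum.inr j) ∉ Set.range x := fun j => j.2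
  have e3 : ∀ g, (bext e g).det = g.det := fun g => by simp [bext]
  rw [← hr]
  refine ⟨S × Bool, inferInstance, fun j => bext e (X j.1 j.1.2 j.2), by simp; omega, fun j =>
    ⟨?_, by rw [← bext_mul, (x1 _ _ _).2, bext_one], fun a b hab => ?_⟩, ?_, ?_⟩
  · simp [bext, fromBlocks_transpose, (x1 _ _ _).1]
  · obtain ⟨a, rfl⟩ := e.surjective a
    obtain ⟨b, rfl⟩ := e.surjective b
    have i1 : ∀ c, e (Sum.inl c) ∈ Set.range x := fun c => ⟨c, rfl⟩
    rcases a with a | a <;> rcases b with b | b
    · exact absurd hab (by simp only [i1, not_true, or_self, not_false_iff])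
    all_goals simp [bext, one_apply]
  · simp only [Fintype.prod_prod_type, Fintype.prod_bool, e3, ← det_mul, x2, Finset.prod_const_one]
  · intro V _ _ _ R v ε hε hs g hg hT
    have e4 := eq_bext e hT e2
    rw [e4] at hg ⊢
    refine h3 V (R.pull e) v ε hε (fun a ha => ?_) _ ((so_bext_iff e _).mp hg)
    have := hs (⟨a, ha⟩, true) (⟨a, ha⟩, false) (by simp)
    simp only [← bext_mul, ← x3] at this
    exact this

end Pool.Agent.P.MP_839d28_al.K3
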