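import Pool.Agent.P.MP_839d28_al.K3.Base
import Pool.Agent.P.MP_839d28_al.SO3

/-! Three involutions in every fixed dimension. -/

open Matrix Equiv
open scoped Quaternion

set_option linter.unusedSectionVars false

namespace Pool.Agent.P.MP_839d28_al.K3

theorem sg_circ (a : Fin 6) : ∃ u c, (u = qi ∨ u = qj ∨ u = qk) ∧ c * c = 1 ∧
    sg a = circ u (c * al5) := by
  have st : ∀ u t, star (circ u t) = circ u (-1 * t) := fun u t => by ext <;> simp
  fin_cases a
  · exact ⟨qi, 1, by simp, by simp, by simpa using sg_zero⟩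
  · exact ⟨qj, 1, by simp, by simp, by simpa using sg_one⟩
  · exact ⟨qk, 1, by simp, by simp, by simpa using sg_two⟩
  · exact ⟨qi, -1, by simp, by simp, by rw [← st, ← sg_zero, star_sg]; rfl⟩
  · exact ⟨qj, -1, by simp, by simp, by rw [← st, ← sg_one, star_sg]; rfl⟩
  · exact ⟨qk, -1, by simp, by simp, by rw [← st, ← sg_two, star_sg]; rfl⟩

theorem rot3_circ {u : ℍ} (hu : u = qi ∨ u = qj ∨ u = qk) :
    ∃ a b : Fin 3, a ≠ b ∧ ∀ s, rot3 (circ u s) = rot (giv a b) (2 * s) := by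
  rcases hu with rfl | rfl | rfl
  · refine ⟨2, 1, by decide, fun s => ?_⟩
    have h := Real.cos_sq_add_sin_sq s
    ext i j
    rw [rot_apply (by decide)]
    fin_cases i <;> fin_cases j <;>
      simp [rot3, Real.cos_two_mul', Real.sin_two_mul, one_apply] <;> linarith
  · refine ⟨0, 2, by decide, fun s => ?_⟩
    have h := Real.cos_sq_add_sin_sq s
    ext i j
    rw [rot_apply (by decide)]
    fin_cases i <;> fin_cases j <;>
      simp [rot3, Real.cos_two_mul', Real.sin_two_mul, one_apply] <;> linarith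
  · refine ⟨1, 0, by decide, fun s => ?_⟩
    have h := Real.cos_sq_add_sin_sq s
    ext i j
    rw [rot_apply (by decide)]
    fin_cases i <;> fin_cases j <;>
      simp [rot3, Real.cos_two_mul', Real.sin_two_mul, one_apply] <;> linarith

theorem rot_smul {ι : Type} [Fintype ι] [DecidableEq ι] (L : Matrix ι ι ℝ) {c : ℝ}
    (hc : c * c = 1) (t : ℝ) : rot (c • L) t = rot L (c * t) := by
  rcases mul_self_eq_one_iff.mp hc with rfl | rfl
  · simp
  · simp [rot_neg]

theorem kaz3 : ∃ C : ℝ, 0 ≤ C ∧ ∀ (V : Type) [NormedAddCommGroup V] [InnerProductSpace ℂ V]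
    [FiniteDimensional ℂ V] (R : MatRep (Fin 3) V) (v : V) (ε : ℝ),
    (∀ a b, a ≠ b → R.N v (rot (giv a b) (2 * al5)) ≤ ε) → ∀ g, SO g → R.N v g ≤ C * ε := by
  obtain ⟨C, hC, h⟩ := su2_kaz
  refine ⟨C, hC, fun V _ _ _ R v ε hs g hg => ?_⟩
  obtain ⟨k, h1, h2⟩ := gen_all hg
  have h3 : ∃ q, ‖q‖ = 1 ∧ k = rot3 q := by
    clear h2
    induction h1 with
    | one => exact ⟨1, norm_one, qhom_rot3.one.symm⟩
    | step a b t k hab _ _ _ ih =>
      obtain ⟨p, hp, e1⟩ := giv_eq_rot3 hab t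
      obtain ⟨q, hq, e2⟩ := ih
      exact ⟨p * q, by rw [norm_mul, hp, hq, one_mul], by rw [e1, e2, qhom_rot3.mul]⟩
  obtain ⟨q, hq, e⟩ := h3
  have := R.N_le v hg h1.so
  rw [h2, R.N_one, add_zero, e] at this
  refine this.trans (h V (R.toQ qhom_rot3) v ε (fun a => ?_) q hq)
  obtain ⟨u, c, hu, hc, e⟩ := sg_circ a
  obtain ⟨x, y, hxy, e'⟩ := rot3_circ hu
  change R.N v (rot3 (sg a)) ≤ ε
  rw [e, e', mul_left_comm, ← rot_smul _ hc, N_sign (adm_giv hxy) hc]
  exact hs x y hxy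

theorem block3 : ∃ C : ℝ, 0 ≤ C ∧ ∀ (ι : Type) [Fintype ι] [DecidableEq ι] (x : Fin 3 → ι),
    Function.Injective x → ∀ (V : Type) [NormedAddCommGroup V] [InnerProductSpace ℂ V]
    [FiniteDimensional ℂ V] (R : MatRep ι V) (v : V) (ε : ℝ),
    (∀ a b, a ≠ b → R.N v (rot (giv (x a) (x b)) (2 * al5)) ≤ ε) →
    Q R v (Set.range x) (C * ε) := by
  classical
  obtain ⟨C, hC, h⟩ := kaz3
  refine ⟨C, hC, fun ι _ _ x hx V _ _ _ R v ε hs g hg hT => ?_⟩
  let e : Fin 3 ⊕ {i // i ∉ Set.range x} ≃ ι :=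
    ((Equiv.ofInjective x hx).sumCongr (Equiv.refl _)).trans (Equiv.sumCompl (· ∈ Set.range x))
  have e1 : ∀ j, e (Sum.inr j) ∉ Set.range x := fun j => j.2
  have e2 := eq_bext e hT e1
  rw [e2] at hg ⊢
  refine h V (R.pull e) v ε (fun a b hab => ?_) _ ((so_bext_iff e _).mp hg)
  have := hs a b hab
  rw [eq_bext e (supp_rot_giv (T := Set.range x) (hx.ne hab) ⟨a, rfl⟩ ⟨b, rfl⟩ _) e1] at this
  convert this using 1
  change R.N v (bext e _) = _
  congr 2
  ext i j
  change _ = rot (giv (x a) (x b)) _ (x i) (x j)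
  simp only [rot_apply hab, rot_apply (hx.ne hab), one_apply, hx.eq_iff]

theorem sp_four {ι : Type} [Fintype ι] [DecidableEq ι] {π : Perm ι} {e : ι → ℝ} (h : π * π = 1)
    (he : ∀ i, e i * e i = 1) : sp π e ^ 4 = 1 := by
  rw [show 4 = 2 * 2 from rfl, pow_mul, sq, sq, sp_mul, h, sp_mul, ← sp_one, one_mul]
  congr 1
  ext i
  rw [inv_one, Perm.one_apply, mul_mul_mul_comm, he, he, mul_one]

/-- the pairing `(c, c+1)(c+2, c+3)⋯` -/
def f2 (n c : ℕ) (i : Fin n) : Fin n :=
  ⟨if i.val < c then i.val else if (i.val + c) % 2 = 1 then i.val - 1 else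
    if i.val + 1 < n then i.val + 1 else i.val, by
    have := i.2
    split_ifs <;> omega⟩

theorem f2_inv (n c : ℕ) : Function.Involutive (f2 n c) := fun i => by
  have := i.2
  ext
  simp only [f2]
  split_ifs <;> omega

theorem has3_small : ∃ C : ℝ, 0 ≤ C ∧ ∀ n, 3 ≤ n → Has3 n ((n + 1) ^ 3 * C) := by
  classical
  obtain ⟨C, hC, hb⟩ := block3
  refine ⟨3 * (93 * C + 1), by positivity, fun n hn => ?_⟩
  obtain ⟨m, rfl⟩ : ∃ m, n = m + 3 := ⟨n - 3, by omega⟩
  let x : Fin 3 → Fin (m + 3) := Fin.castLE hn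
  have hx : Function.Injective x := Fin.castLE_injective hn
  let y : Fin (m + 3) := if h : 0 < m then ⟨3, by omega⟩ else x 2
  let π1 := swap (x 2) y
  let π2 := (f2_inv (m + 3) 4).toPerm
  let π3 := (f2_inv (m + 3) 1).toPerm
  have n01 : x 0 ≠ x 1 := hx.ne (by decide)
  have n02 : x 0 ≠ x 2 := hx.ne (by decide)
  have n12 : x 1 ≠ x 2 := hx.ne (by decide)
  have hy : ∀ a, a ≠ 2 → π1 (x a) = x a := fun a ha => swap_apply_of_ne_of_ne (hx.ne ha) (by
    simp only [y]
    split_ifs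
    · exact Fin.ne_of_val_ne (by have := a.2; simp [x]; omega)
    · exact hx.ne ha)
  have p2 : ∀ a, π2 (x a) = x a := fun a => Fin.ext (by have := a.2; simp [π2, f2, x]; omega)
  have p30 : π3 (x 0) = x 0 := Fin.ext (by simp [π3, f2, x])
  have p31 : π3 (x 1) = x 2 := Fin.ext (by simp [π3, f2, x])
  have ns : ∀ π : Perm (Fin (m + 3)), -((Perm.sign π : ℤ) : ℝ) * -((Perm.sign π : ℤ) : ℝ) = 1 :=
    fun π => by rw [neg_mul_neg, sign_sq]
  let e : Perm (Fin (m + 3)) → Fin (m + 3) → ℝ := fun π =>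
    sg2 (x 1) (x 2) (-1) (-((Perm.sign π : ℤ) : ℝ))
  have ee : ∀ π i, e π i * e π i = 1 := fun π => sg2_sq _ _ (by simp) (ns π)
  have es : ∀ π, SO (sp π (e π)) := fun π => so_sp π _ _ (by simp) (ns π) (by simp)
  let e3 := sg2 (x 0) (x 0) ((Perm.sign π3 : ℤ) : ℝ) 1
  have ee3 : ∀ i, e3 i * e3 i = 1 := sg2_sq _ _ (sign_sq _) (by simp)
  have s3 : SO (sp π3 e3) := so_sp π3 _ _ (sign_sq _) (by simp) (by simp)
  have t1 : (sp π1 (e π1))ᵀ = sp π1 (e π1) := sp_symm (swap_apply_self _ _)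
    (sg2_inv _ (hy 1 (by decide)) (by
      by_cases h : x 2 = y
      · exact Or.inl (by simp [π1, ← h])
      · exact Or.inr (by simp [π1, Perm.sign_swap h])))
  have t2 : (sp π2 (e π2))ᵀ = sp π2 (e π2) := sp_symm (f2_inv _ _) (sg2_inv _ (p2 1) (.inl (p2 2)))
  have t3 : (sp π3 e3)ᵀ = sp π3 e3 := sp_symm (f2_inv _ _) (sg2_inv _ p30 (.inr rfl))
  set μ1 := sp π1 (e π1) with hμ1
  set μ2 := sp π2 (e π2) with hμ2
  set μ3 := sp π3 e3 with hμ3
  set A := rot (giv (x 0) (x 1)) with hA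
  have aA := adm_giv n01
  have sA : ∀ t, SO (A t) := so_rot aA
  have Aadd : ∀ s t, A s * A t = A (s + t) := fun s t => (rot_add aA s t).symm
  have fl : ∀ π : Perm (Fin (m + 3)), π (x 0) = x 0 → π (x 1) = x 1 → ∀ t,
      sp π (e π) * A t = A (-t) * sp π (e π) := fun π h0 h1 t => by
    have := rot_cj (es π) (giv (x 0) (x 1)) t
    rw [sp_giv, h0, h1, show e π (x 0) * e π (x 1) = -1 by simp [e, sg2, n01, n02, n12],
      neg_one_smul, rot_neg] at this
    rw [hA, this, Matrix.mul_assoc, (es π).1, mul_one]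
  have c1 := fl π1 (hy 0 (by decide)) (hy 1 (by decide))
  have c2 := fl π2 (p2 0) (p2 1)
  have q1 : μ1 * μ1 = 1 := by simpa only [t1] using (show μ1ᵀ * μ1 = 1 from (es π1).1)
  have q2 : μ2 * μ2 = 1 := by simpa only [t2] using (show μ2ᵀ * μ2 = 1 from (es π2).1)
  have q3 : μ3 * μ3 = 1 := by simpa only [t3] using s3.1
  have inv : ∀ μ : Matrix _ _ ℝ, (∀ t, μ * A t = A (-t) * μ) → μ * μ = 1 → ∀ t,
      A t * μ * (A t * μ) = 1 := fun μ h1 h2 t => by
    rw [Matrix.mul_assoc, ← Matrix.mul_assoc μ, h1, Matrix.mul_assoc, h2, mul_one, Aadd,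
      add_neg_cancel, hA, rot_zero]
  refine ⟨{A (al5 + Real.pi / 8) * μ1, A al5 * μ2, μ3}, Finset.card_le_three, ?_, ?_⟩
  · simp only [Finset.mem_insert, Finset.mem_singleton, forall_eq_or_imp, forall_eq]
    exact ⟨⟨(sA _).mul (es _), inv _ c1 q1 _⟩, ⟨(sA _).mul (es _), inv _ c2 q2 _⟩, s3, q3⟩
  intro V _ _ _ R v ε hε h1 h2
  simp only [Finset.mem_insert, Finset.mem_singleton, forall_eq_or_imp, forall_eq] at h2
  obtain ⟨j1, j2, j3⟩ := h2
  have b1 := h1 (A (al5 + Real.pi / 8) * μ1) (by simp) (A al5 * μ2) (by simp)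
  have w : (μ1 * μ2) ^ 4 = 1 := by
    rw [hμ1, hμ2, sp_mul]
    refine sp_four ?_ fun i => by rw [mul_mul_mul_comm, ee, ee, mul_one]
    have a : π2 y = y := Fin.ext (by
      simp only [π2, f2, y, Function.Involutive.coe_toPerm]
      rw [if_pos]
      split_ifs <;> simp [x])
    have b : π2 * π2 = 1 := Equiv.ext (f2_inv _ _)
    rw [mul_assoc, ← mul_assoc π2, mul_swap_eq_swap_mul, p2, a, mul_assoc, b, mul_one,
      Equiv.swap_mul_self]
  have cm : Commute (A (Real.pi / 8)) (μ1 * μ2) := by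
    rw [Commute, SemiconjBy, Matrix.mul_assoc, c2, ← Matrix.mul_assoc μ1, c1, neg_neg,
      Matrix.mul_assoc]
  have e1 : A (al5 + Real.pi / 8) * μ1 * (A al5 * μ2) = A (Real.pi / 8) * (μ1 * μ2) := by
    rw [Matrix.mul_assoc, ← Matrix.mul_assoc μ1, c1, Matrix.mul_assoc, ← Matrix.mul_assoc, Aadd]
    congr 2
    ring
  rw [e1] at b1
  have sB := (sA (Real.pi / 8)).mul ((es π1).mul (es π2))
  have b2 : R.N v (A (Real.pi / 2)) ≤ 4 * ε := by
    have : A (Real.pi / 2) = (A (Real.pi / 8) * (μ1 * μ2)) ^ 4 := by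
      rw [cm.mul_pow, w, mul_one, show 4 = 2 * 2 from rfl, pow_mul, sq, sq, Aadd, Aadd]
      congr 1
      ring
    rw [this, show 4 = 2 * 2 from rfl, pow_mul, sq, sq]
    linarith [R.N_mul v sB sB, R.N_mul v (sB.mul sB) (sB.mul sB)]
  have b3 : ∀ t, R.N v (rot (giv (x 0) (x 2)) t) ≤ R.N v (A t) + ε := fun t => by
    simpa only [p30, p31] using N_giv s3 ee3 j3 n01 t
  have aB := adm_giv n02
  set D := rot (giv (x 0) (x 2)) Real.pi with hD
  have sD : SO D := so_rot aB _
  have b4 : R.N v D ≤ 10 * ε := by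
    have := R.N_mul v (so_rot aB (Real.pi / 2)) (so_rot aB (Real.pi / 2))
    rw [← rot_add aB, add_halves] at this
    linarith [b3 (Real.pi / 2)]
  have d1 : μ2 * D * μ2ᵀ = D := by
    rw [hD, ← rot_cj (es π2), sp_giv, p2, p2, rot, rot, Real.sin_pi, smul_mul_smul_comm,
      mul_mul_mul_comm, ee, ee]
    simp
  have d2 : D = sp 1 (sg2 (x 0) (x 2) (-1) (-1)) := by
    ext i j
    simp only [hD, rot_apply n02, sp_apply, Real.cos_pi, Real.sin_pi, one_apply, sg2,
      Perm.one_apply]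
    grind
  have d3 : ∀ t, D * A t * Dᵀ = A (-t) := fun t => by
    rw [hA, ← rot_cj sD, d2, sp_giv, ← rot_neg]
    simp [sg2, n02, n01.symm, n12]
  have b5 : R.N v (A (2 * al5)) ≤ 21 * ε := by
    have a1 := j2 D sD
    have a2 := R.N_mul v (SO.cj ((sA al5).mul (es π2)) sD) sD.transpose
    have : A al5 * μ2 * D * (A al5 * μ2)ᵀ * Dᵀ = A (2 * al5) := by
      have := d3 (-al5)
      rw [neg_neg] at this
      calc _ = A al5 * (μ2 * D * μ2ᵀ * (A al5)ᵀ * Dᵀ) := by
            simp only [transpose_mul, Matrix.mul_assoc]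
        _ = _ := by rw [d1, hA, rot_transpose aA, ← hA, this, Aadd, two_mul]
    rw [this, R.N_transpose v sD] at a2
    linarith
  have b6 : R.N v (rot (giv (x 2) (x 1)) (2 * al5)) ≤ 31 * ε := by
    have s := so_rot aB (Real.pi / 2)
    have c := cj_of_N s ((b3 _).trans (add_le_add_left b2 ε))
    rw [quarter n02] at s c
    have := N_giv s (sg2_sq _ _ (by simp) (by simp)) c n01 (2 * al5)
    rw [swap_apply_left, swap_apply_of_ne_of_ne n01.symm n12] at this
    linarith
  have sy : ∀ a b : Fin (m + 3), a ≠ b → ∀ t, R.N v (rot (giv b a) t) = R.N v (rot (giv a b) t) :=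
    fun a b h t => by
      rw [← N_sign (adm_giv h) (c := -1) (by simp)]
      simp [giv]
  have b7 := hb _ x hx V R v (31 * ε) (by
    have := b3 (2 * al5)
    have k1 := sy _ _ n01 (2 * al5)
    have k2 := sy _ _ n02 (2 * al5)
    have k3 := sy _ _ n12 (2 * al5)
    intro a b hab
    fin_cases a <;> fin_cases b <;> first
      | exact absurd rfl hab
      | simp only [Fin.zero_eta, Fin.mk_one, Fin.reduceFinMk]; linarith)
  have cj : ∀ μ t, SO μ → Cj R v (A t * μ) ε → Cj R v μ ((93 * C + 1) * ε) := fun μ t s h => by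
    have := (cj_of_N (sA (-t)) (b7 _ (sA _) (supp_rot_giv (T := Set.range x) n01 ⟨0, rfl⟩
      ⟨1, rfl⟩ _))).mul h
      ((sA t).mul s)
    rw [← Matrix.mul_assoc, Aadd, neg_add_cancel, hA, rot_zero, one_mul] at this
    exact this.mono (by nlinarith [mul_nonneg hC hε])
  have k1 := cj _ _ (es π1) j1
  have k2 := cj _ _ (es π2) j2
  have k3 := j3.mono (b := (93 * C + 1) * ε) (by nlinarith [mul_nonneg hC hε])
  have st : ∀ t : ℕ, Q R v (Iv (m + 3) 1 0 ∪ Iv (m + 3) 1 (t + 1))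
      ((t + 1) * ((93 * C + 1) * ε)) := by
    intro t
    induction t with
    | zero =>
      refine b7.mono (fun i hi => ⟨⟨i.val, ?_⟩, rfl⟩) (by simp; nlinarith [mul_nonneg hC hε])
      simp only [Iv, Set.mem_union, Set.mem_ofPred_eq] at hi
      omega
    | succ t ih =>
      have mv : ∀ (π : Perm (Fin (m + 3))) (e : Fin (m + 3) → ℝ), SO (sp π e) →
          Cj R v (sp π e) ((93 * C + 1) * ε) → (∀ j, ((π j).val = 0 → j.val = 0) ∧
            ((π j).val = t + 2 → j.val = t + 1)) →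
          Q R v (Iv (m + 3) 1 0 ∪ Iv (m + 3) 1 (t + 1 + 1))
            (((t + 1 : ℕ) + 1) * ((93 * C + 1) * ε)) := fun π e s c h =>
        (ih.move s c fun i j hij hi => by
          have := h j
          rw [← sp_ne hij] at this
          simp only [Iv, Set.mem_union, Set.mem_ofPred_eq] at hi ⊢
          omega).mono subset_rfl (by push_cast; linarith)
      by_cases h1 : t % 2 = 0
      · refine mv _ _ s3 k3 fun j => ?_
        simp only [π3, f2, Function.Involutive.coe_toPerm]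
        split_ifs <;> constructor <;> intro h <;> first | omega | exact h.elim
      by_cases h2 : t = 1
      · refine mv _ _ (es π1) k1 fun j => ?_
        have := j.2
        simp only [π1, y, x, swap_apply_def, Fin.ext_iff, apply_ite Fin.val, apply_dite Fin.val,
          Fin.val_castLE, Fin.val_two, dite_eq_ite]
        split_ifs <;> constructor <;> intro h <;> first | omega | exact h.elim
      · refine mv _ _ (es π2) k2 fun j => ?_
        simp only [π2, f2, Function.Involutive.coe_toPerm]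
        split_ifs <;> constructor <;> intro h <;> first | omega | exact h.elim
  intro g hg
  have p : 0 ≤ (93 * C + 1) * ε := by positivity
  have := star_bound (R := R) (v := v) (b := 1) (r := m + 3)
    (δ := ((m + 3 : ℕ) + 1) * ((93 * C + 1) * ε)) (by positivity) one_pos (by omega) (by omega)
    (fun t => by
      have ht : (t - 1 : ℕ) ≤ m + 3 ∨ m + 3 ≤ t := by omega
      rcases ht with ht | ht
      · refine (st (t - 1)).mono (fun i hi => ?_) (by gcongr)
        simp only [Iv, Set.mem_union, Set.mem_ofPred_eq] at hi ⊢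
        omega
      · refine (st 0).mono (fun i hi => ?_) (by gcongr; positivity)
        have := i.2
        simp only [Iv, Set.mem_union, Set.mem_ofPred_eq] at hi ⊢
        omega) g hg
  refine this.trans_eq ?_
  ring

end Pool.Agent.P.MP_839d28_al.K3
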